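import Mathlib

/-!
# Exact identities behind the sum of `(4k+1) (1/2)_k^4 / k!^4`
-/

set_option autoImplicit false

namespace Pool.Agent.K7.H59.SC

open Finset

/-- `((1/2)_k / k!)^2` -/
noncomputable def cc (k : ℕ) : ℚ := ∏ i ∈ range k, ((2*(i:ℚ)+1)/(2*i+2))^2

/-- `(-1)^k C(n,k) C(n+k,k)` -/
noncomputable def ee (n k : ℕ) : ℚ := ∏ i ∈ range k, (((i:ℚ)-n)*(n+1+i)/((i:ℚ)+1)^2)

/-- `(-1)^k C(m,k) C(m+k-1,k)` -/
noncomputable def dd (m k : ℕ) : ℚ := ∏ i ∈ range k, (((i:ℚ)-m)*(m+i)/((i:ℚ)+1)^2)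

/-- the partial sums of `dd` -/
noncomputable def pd (m k : ℕ) : ℚ := ∏ i ∈ range k, (((i:ℚ)+1-m)*(m+1+i)/((i:ℚ)+1)^2)

/-- `∑ 1/(2i+1)` -/
noncomputable def O1 (k : ℕ) : ℚ := ∑ i ∈ range k, 1/(2*(i:ℚ)+1)

/-- `∑ 1/(2i+1)^2` -/
noncomputable def O2 (k : ℕ) : ℚ := ∑ i ∈ range k, 1/(2*(i:ℚ)+1)^2

lemma cc_succ (k : ℕ) : cc (k+1) = cc k * ((2*(k:ℚ)+1)/(2*k+2))^2 := by
  unfold cc; rw [prod_range_succ]

lemma ee_succ (n k : ℕ) : ee n (k+1) = ee n k * (((k:ℚ)-n)*(n+1+k)/((k:ℚ)+1)^2) := by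
  unfold ee; rw [prod_range_succ]

lemma dd_succ (n k : ℕ) : dd n (k+1) = dd n k * (((k:ℚ)-n)*(n+k)/((k:ℚ)+1)^2) := by
  unfold dd; rw [prod_range_succ]

lemma pd_succ (n k : ℕ) : pd n (k+1) = pd n k * (((k:ℚ)+1-n)*(n+1+k)/((k:ℚ)+1)^2) := by
  unfold pd; rw [prod_range_succ]

lemma odd_ne (n k : ℕ) : (2*(n:ℚ)+1-2*k) ≠ 0 := by
  intro h
  have : (2*(n:ℤ)+1-2*k) = 0 := by exact_mod_cast h
  omega

/-- the partial sums of the first sum -/
lemma sumA (n : ℕ) : ∑ k ∈ range (n+1), (4*(k:ℚ)+1) * (cc k)^2 =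
    (2*(n:ℚ)+1)^2 * cc n * ∑ k ∈ range (n+1), cc k / (2*(n:ℚ)+1-2*k) := by
  have tel : ∀ n k : ℕ, cc k * ((2*(n:ℚ)+3)^2/(2*n+3-2*k) - (2*(n:ℚ)+2)^2/(2*n+1-2*k)) =
      (-(2*((k+1:ℕ):ℚ))^2 * cc (k+1) / (2*(n:ℚ)+3-2*((k+1:ℕ):ℚ))) - (-(2*(k:ℚ))^2 * cc k / (2*(n:ℚ)+3-2*k)) := by
    intro n k
    have h1 := odd_ne n k
    have h2 : (2*(n:ℚ)+3-2*k) ≠ 0 := by
      have := odd_ne (n+1) k; push_cast at this; intro h; apply this; linarith
    have h3 : 2*(k:ℚ)+2 ≠ 0 := by positivity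
    rw [cc_succ]
    push_cast
    rw [show 2*(n:ℚ)+3-2*((k:ℚ)+1) = 2*(n:ℚ)+1-2*k by ring]
    generalize hd : 2*(n:ℚ)+1-2*k = d at *
    generalize he : 2*(n:ℚ)+3-2*k = e at *
    have hk : (k:ℚ) = n + (1-d)/2 := by linarith
    have hee : e = d + 2 := by linarith
    field_simp
    rw [hee, hk]
    ring
  induction n with
  | zero => simp [cc]
  | succ n ih =>
    rw [sum_range_succ, ih]
    have hs : ∑ k ∈ range (n+1), cc k * ((2*(n:ℚ)+3)^2/(2*n+3-2*k) - (2*(n:ℚ)+2)^2/(2*n+1-2*k)) =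
        -(2*((n+1:ℕ):ℚ))^2 * cc (n+1) / (2*(n:ℚ)+3-2*((n+1:ℕ):ℚ)) := by
      have e1 : ∀ m : ℕ, ∑ k ∈ range m, cc k * ((2*(n:ℚ)+3)^2/(2*n+3-2*k) - (2*(n:ℚ)+2)^2/(2*n+1-2*k)) =
          -(2*(m:ℚ))^2 * cc m / (2*(n:ℚ)+3-2*m) := by
        intro m
        induction m with
        | zero => simp
        | succ m ihm =>
          rw [sum_range_succ, ihm, tel]
          ring
      rw [e1]
    have hs2 : ∑ k ∈ range (n+1), cc k * ((2*(n:ℚ)+3)^2/(2*n+3-2*k) - (2*(n:ℚ)+2)^2/(2*n+1-2*k)) =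
        (2*(n:ℚ)+3)^2 * ∑ k ∈ range (n+1), cc k/(2*n+3-2*k) -
        (2*(n:ℚ)+2)^2 * ∑ k ∈ range (n+1), cc k / (2*(n:ℚ)+1-2*k) := by
      rw [mul_sum, mul_sum, ← sum_sub_distrib]
      apply sum_congr rfl
      intro k _
      ring
    rw [hs2] at hs
    rw [sum_range_succ (fun k : ℕ => cc k / (2*(((n+1:ℕ):ℕ):ℚ)+1-2*k))]
    push_cast at hs ⊢
    have e3 : ∑ k ∈ range (n+1), cc k / (2*((n:ℚ)+1)+1-2*k) = ∑ k ∈ range (n+1), cc k/(2*(n:ℚ)+3-2*k) := by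
      apply sum_congr rfl
      intro k _
      congr 1; ring
    rw [e3]
    rw [show 2*(n:ℚ)+3-2*((n:ℚ)+1) = 1 by ring, div_one] at hs
    rw [show 2*((n:ℚ)+1)+1-2*((n:ℚ)+1) = 1 by ring, div_one]
    have hcc : (2*(n:ℚ)+2)^2 * cc (n+1) = cc n * (2*(n:ℚ)+1)^2 := by
      rw [cc_succ]
      have h3 : 2*(n:ℚ)+2 ≠ 0 := by positivity
      field_simp
    generalize (∑ k ∈ range (n+1), cc k / (2*(n:ℚ)+1-2*k)) = f at *
    generalize (∑ k ∈ range (n+1), cc k / (2*(n:ℚ)+3-2*k)) = f' at *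
    linear_combination (-cc (n+1)) * hs - f * hcc

lemma ed1 (n k : ℕ) : ((n:ℚ)+1) * ee n k = dd (n+1) k * (n+1-k) := by
  induction k with
  | zero => simp [ee, dd]
  | succ k ih =>
    rw [ee_succ, dd_succ]
    have h : (k:ℚ)+1 ≠ 0 := by positivity
    push_cast
    rw [← mul_assoc, ih]
    field_simp
    ring

lemma ed2 (n k : ℕ) : ((n:ℚ)+1) * ee (n+1) k = dd (n+1) k * (n+1+k) := by
  induction k with
  | zero => simp [ee, dd]
  | succ k ih =>
    rw [ee_succ, dd_succ]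
    have h : (k:ℚ)+1 ≠ 0 := by positivity
    push_cast
    rw [← mul_assoc, ih]
    field_simp
    ring

lemma pe (m k : ℕ) : ((m:ℚ)+1) * pd (m+1) k - m * pd m k = (2*(k:ℚ)+1) * ee m k := by
  have h1 : ((m:ℚ)+1) * pd (m+1) k = (m+1+k) * ee m k := by
    induction k with
    | zero => simp [ee, pd]
    | succ k ih =>
      rw [ee_succ, pd_succ]
      have h : (k:ℚ)+1 ≠ 0 := by positivity
      push_cast
      rw [← mul_assoc, ih]
      field_simp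
      ring
  have h2 : (m:ℚ) * pd m k = (m-k) * ee m k := by
    clear h1
    induction k with
    | zero => simp [ee, pd]
    | succ k ih =>
      rw [ee_succ, pd_succ]
      have h : (k:ℚ)+1 ≠ 0 := by positivity
      push_cast
      rw [← mul_assoc, ih]
      field_simp
      ring
  rw [h1, h2]; ring

lemma ee_top (n k : ℕ) (h : n < k) : ee n k = 0 := by
  unfold ee
  apply prod_eq_zero (i := n) (by rw [mem_range]; exact h)
  simp

lemma pd_top (n k : ℕ) (h : n < k) : pd (n+1) k = 0 := by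
  unfold pd
  apply prod_eq_zero (i := n) (by rw [mem_range]; exact h)
  push_cast
  simp

lemma sum_dd (m K : ℕ) : ∑ k ∈ range (K+1), dd m k = pd m K := by
  induction K with
  | zero => simp [dd, pd]
  | succ K ih =>
    rw [sum_range_succ, ih]
    have h1 : ∀ K : ℕ, dd m (K+1) * ((K:ℚ)+1)^2 = -(m:ℚ)^2 * pd m K := by
      intro K
      induction K with
      | zero => simp [dd, pd]; ring
      | succ K ih =>
        rw [dd_succ, pd_succ]
        have h : (K:ℚ)+1 ≠ 0 := by positivity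
        have h' : (K:ℚ)+1+1 ≠ 0 := by positivity
        push_cast
        have : dd m (K+1) = -(m:ℚ)^2 * pd m K / ((K:ℚ)+1)^2 := by
          rw [eq_div_iff (by positivity)]; exact ih
        rw [this]
        field_simp
        ring
    have h : (K:ℚ)+1 ≠ 0 := by positivity
    have : dd m (K+1) = -(m:ℚ)^2 * pd m K / ((K:ℚ)+1)^2 := by
      rw [eq_div_iff (by positivity)]; exact h1 K
    rw [this, pd_succ]
    field_simp
    ring

/-- partial fractions -/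
lemma pf (n : ℕ) (z : ℚ) (hz : ∀ k : ℕ, z + k ≠ 0) :
    ∑ k ∈ range (n+1), ee n k / (z+k) = (∏ i ∈ range n, ((i:ℚ)+1-z)) / ∏ i ∈ range (n+1), (z+(i:ℚ)) := by
  induction n with
  | zero => simp [ee]
  | succ n ih =>
    have ih' : ∑ k ∈ range (n+2), ee n k / (z+k) = (∏ i ∈ range n, ((i:ℚ)+1-z)) / ∏ i ∈ range (n+1), (z+(i:ℚ)) := by
      rw [sum_range_succ, ih, ee_top n (n+1) (by omega)]; simp
    have h0 : (n:ℚ)+1 ≠ 0 := by positivity
    have hd : ∑ k ∈ range (n+2), dd (n+1) k = 0 := by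
      rw [sum_dd, pd_top n (n+1) (by omega)]
    have key : ((n:ℚ)+1) * ((z+n+1) * ∑ k ∈ range (n+2), ee (n+1) k / (z+k) -
        (n+1-z) * ∑ k ∈ range (n+2), ee n k / (z+k)) = 2 * ((n:ℚ)+1) * ∑ k ∈ range (n+2), dd (n+1) k := by
      rw [mul_sum, mul_sum, ← sum_sub_distrib, mul_sum, mul_sum]
      apply sum_congr rfl
      intro k _
      have h1 := ed1 n k
      have h2 := ed2 n k
      have h3 := hz k
      have h4 : ((n:ℚ)+1) * ((z+n+1) * ee (n+1) k - (n+1-z) * ee n k) = 2 * ((n:ℚ)+1) * dd (n+1) k * (z+k) := by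
        linear_combination (z+n+1) * h2 - (n+1-z) * h1
      have h5 : ((n:ℚ)+1) * ((z+n+1) * (ee (n+1) k / (z+k)) - (n+1-z) * (ee n k / (z+k))) =
          (((n:ℚ)+1) * ((z+n+1) * ee (n+1) k - (n+1-z) * ee n k)) / (z+k) := by ring
      rw [h5, h4, mul_div_assoc, div_self h3, mul_one]
    rw [hd, mul_zero] at key
    have key2 : (z+n+1) * ∑ k ∈ range (n+2), ee (n+1) k / (z+k) =
        (n+1-z) * ∑ k ∈ range (n+2), ee n k / (z+k) := by
      have := (mul_eq_zero.mp key).resolve_left h0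
      linarith
    have h4 : z + n + 1 ≠ 0 := by
      have := hz (n+1); push_cast at this; rwa [← add_assoc] at this
    have h5 : ∏ i ∈ range (n+1), (z+(i:ℚ)) ≠ 0 := prod_ne_zero_iff.mpr (fun i _ => hz i)
    rw [ih'] at key2
    rw [show n + 1 + 1 = n + 2 by ring]
    apply mul_left_cancel₀ h4
    rw [key2, prod_range_succ (fun i : ℕ => (i:ℚ)+1-z) n, prod_range_succ (fun i : ℕ => z+(i:ℚ)) (n+1)]
    push_cast
    rw [← add_assoc]
    generalize (∏ i ∈ range (n+1), (z+(i:ℚ))) = Q at *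
    generalize (∏ i ∈ range n, ((i:ℚ)+1-z)) = P at *
    field_simp

lemma sum_ee_odd (m : ℕ) : ∑ k ∈ range (m+1), ee m k / (2*(k:ℚ)+1) = 1/(2*(m:ℚ)+1) := by
  have h := pf m (1/2) (by intro k; positivity)
  have e1 : ∑ k ∈ range (m+1), ee m k / (2*(k:ℚ)+1) = (1/2) * ∑ k ∈ range (m+1), ee m k / (1/2+(k:ℚ)) := by
    rw [mul_sum]
    apply sum_congr rfl
    intro k _
    have : (2*(k:ℚ)+1) ≠ 0 := by positivity
    have h2 : 1/2+(k:ℚ) ≠ 0 := by positivity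
    field_simp
    ring
  rw [e1, h, prod_range_succ]
  have e2 : ∏ i ∈ range m, ((i:ℚ)+1-1/2) = ∏ i ∈ range m, (1/2+(i:ℚ)) := by
    apply prod_congr rfl
    intro i _; ring
  rw [e2]
  have h5 : ∏ i ∈ range m, (1/2+(i:ℚ)) ≠ 0 := prod_ne_zero_iff.mpr (fun i _ => by positivity)
  have h6 : 1/2+(m:ℚ) ≠ 0 := by positivity
  have h7 : (2*(m:ℚ)+1) ≠ 0 := by positivity
  field_simp
  ring

lemma sumU (m : ℕ) : (m:ℚ) * ∑ k ∈ range m, pd m k / (2*(k:ℚ)+1)^2 = O1 m := by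
  induction m with
  | zero => simp [O1]
  | succ m ih =>
    have e1 : O1 (m+1) = O1 m + 1/(2*(m:ℚ)+1) := by unfold O1; rw [sum_range_succ]
    have e2 : (m:ℚ) * ∑ k ∈ range (m+1), pd m k / (2*(k:ℚ)+1)^2 = O1 m := by
      rw [sum_range_succ]
      rcases m with _ | m
      · simp [O1]
      · rw [pd_top m (m+1) (by omega)]
        rw [zero_div, add_zero]; exact ih
    rw [e1, ← e2, ← sum_ee_odd]
    push_cast
    rw [mul_sum, mul_sum, ← sum_add_distrib]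
    apply sum_congr rfl
    intro k _
    have h := pe m k
    have h1 : (2*(k:ℚ)+1) ≠ 0 := by positivity
    field_simp
    linear_combination h

lemma abel (m K : ℕ) : ∑ k ∈ range (K+1), dd m k * O2 k =
    pd m K * O2 K - ∑ k ∈ range K, pd m k / (2*(k:ℚ)+1)^2 := by
  induction K with
  | zero => simp [O2]
  | succ K ih =>
    rw [sum_range_succ, ih, sum_range_succ (fun k => pd m k / (2*(k:ℚ)+1)^2)]
    have e1 : dd m (K+1) = pd m (K+1) - pd m K := by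
      rw [← sum_dd, ← sum_dd, sum_range_succ]; ring
    have e2 : O2 (K+1) = O2 K + 1/(2*(K:ℚ)+1)^2 := by unfold O2; rw [sum_range_succ]
    rw [e1, e2]
    ring

/-- the double sum -/
lemma dbl (n : ℕ) : ∑ k ∈ range n, ee n (k+1) * O2 (k+1) / ((k:ℚ)+1) =
    -2 * ∑ m ∈ range n, O1 (m+1) / ((m:ℚ)+1)^2 := by
  induction n with
  | zero => simp
  | succ n ih =>
    have ih' : ∑ k ∈ range (n+1), ee n (k+1) * O2 (k+1) / ((k:ℚ)+1) =
        -2 * ∑ m ∈ range n, O1 (m+1) / ((m:ℚ)+1)^2 := by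
      rw [sum_range_succ, ih, ee_top n (n+1) (by omega)]; simp
    rw [sum_range_succ (fun m => O1 (m+1) / ((m:ℚ)+1)^2), mul_add, ← ih']
    have h0 : (n:ℚ)+1 ≠ 0 := by positivity
    have h1 : ∑ k ∈ range (n+1), ee (n+1) (k+1) * O2 (k+1) / ((k:ℚ)+1) -
        ∑ k ∈ range (n+1), ee n (k+1) * O2 (k+1) / ((k:ℚ)+1) =
        (2/((n:ℚ)+1)) * ∑ k ∈ range (n+1), dd (n+1) (k+1) * O2 (k+1) := by
      rw [← sum_sub_distrib, mul_sum]
      apply sum_congr rfl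
      intro k _
      have h2 := ed1 n (k+1)
      have h3 := ed2 n (k+1)
      have h4 : (k:ℚ)+1 ≠ 0 := by positivity
      push_cast at h2 h3
      field_simp
      linear_combination (O2 (k+1)) * (h3 - h2)
    have h5 : ∑ k ∈ range (n+1), dd (n+1) (k+1) * O2 (k+1) = -(O1 (n+1) / ((n:ℚ)+1)) := by
      have h6 := abel (n+1) (n+1)
      rw [sum_range_succ' (fun k => dd (n+1) k * O2 k), pd_top n (n+1) (by omega)] at h6
      have h7 : O2 0 = 0 := by simp [O2]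
      rw [h7] at h6
      have h8 := sumU (n+1)
      push_cast at h8
      have h9 : ∑ k ∈ range (n+1), pd (n+1) k / (2*(k:ℚ)+1)^2 = O1 (n+1) / ((n:ℚ)+1) := by
        rw [eq_div_iff h0, ← h8]; ring
      rw [h9] at h6
      linarith
    rw [h5] at h1
    have h10 : (2/((n:ℚ)+1)) * -(O1 (n+1) / ((n:ℚ)+1)) = -2 * (O1 (n+1) / ((n:ℚ)+1)^2) := by
      field_simp
    rw [h10] at h1
    linarith

end Pool.Agent.K7.H59.SC
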