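import Pool.Agent.Helper857.W2

/-!
# A WZ pair for the sum of `(3k+1) (1/2)_k^3 4^k / k!^3`
-/

set_option autoImplicit false

namespace Pool.Agent.K7.H59.SC

open Finset
open Pool.Agent.Helper857.W (od od_ne od_succ od_fact od_fact' od_shift fact_shift refl_prod p1 p2)

/-- `(1/2)_n^3 4^n / n!^3` -/
noncomputable def tb (n : ℕ) : ℚ := (∏ i ∈ range n, ((2*(i:ℚ)+1)/(2*i+2)))^3 * 4^n

noncomputable def rho (n j : ℕ) : ℚ :=
  -((2*(n:ℚ)+2*j+1) * (((n:ℚ) - 2*j) * ((n:ℚ) - 2*j - 1))) /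
    ((2*(n:ℚ) - 2*j - 1) * (((n:ℚ) + 2*j + 1) * ((n:ℚ) + 2*j + 2)))

noncomputable def h (n j : ℕ) : ℚ := tb n * ∏ i ∈ range j, rho n i

noncomputable def G (n j : ℕ) : ℚ := 4 * (n:ℚ)^2 * ((n:ℚ) - 2*j) * h n j / ((2*(n:ℚ) - 2*j - 1) * ((n:ℚ)+2*j+1))

noncomputable def F (n j : ℕ) : ℚ := (3*(n:ℚ) + 1) * h n j

lemma tb_succ (n : ℕ) : tb (n+1) = tb n * (2*(n:ℚ)+1)^3 / (2 * ((n:ℚ)+1)^3) := by
  unfold tb
  rw [prod_range_succ]
  have h3 : (n:ℚ) + 1 ≠ 0 := by positivity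
  have h4 : 2*(n:ℚ) + 2 ≠ 0 := by positivity
  rw [mul_pow, div_pow, pow_succ 4 n, show 2*(n:ℚ)+2 = 2*(n+1) by ring, mul_pow]
  field_simp
  ring

lemma odn (n j : ℕ) : (2*(n:ℚ) - 2*j - 1) ≠ 0 := by
  intro h
  have : (2*(n:ℤ) - 2*j - 1) = 0 := by exact_mod_cast h
  omega

lemma odn' (n j : ℕ) : (2*(n:ℚ) - 2*j + 1) ≠ 0 := by
  intro h
  have : (2*(n:ℤ) - 2*j + 1) = 0 := by exact_mod_cast h
  omega

lemma h_succ (n j : ℕ) : h n (j+1) = h n j * rho n j := by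
  unfold h; rw [prod_range_succ]; ring

lemma kappa (n j : ℕ) : ((n:ℚ) + 1 - 2*j) * h (n+1) j =
    (2*(n:ℚ)+1) * (2*(n:ℚ) + 2*j + 1) * (2*(n:ℚ) - 2*j + 1) / (2 * ((n:ℚ)+1) * ((n:ℚ)+1+2*j)) * h n j := by
  induction j with
  | zero =>
    simp only [h, prod_range_zero, mul_one, tb_succ]
    have h3 : (n:ℚ) + 1 ≠ 0 := by positivity
    push_cast
    simp only [mul_zero, sub_zero, add_zero]
    field_simp
  | succ j ih =>
    rw [h_succ, h_succ]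
    have e1 : ((n:ℚ) + 1 - 2*((j+1:ℕ):ℚ)) * (h (n+1) j * rho (n+1) j) =
        (((n:ℚ) + 1 - 2*j) * h (n+1) j) *
        (-((2*(n:ℚ)+2*j+3) * (((n:ℚ) - 1 - 2*j) * ((n:ℚ) - 2*j))) /
          ((2*(n:ℚ) - 2*j + 1) * (((n:ℚ) + 2*j + 2) * ((n:ℚ) + 2*j + 3)))) := by
      unfold rho
      have := odn' n j
      have h4 : (n:ℚ) + 2*j + 2 ≠ 0 := by positivity
      have h4' : (n:ℚ) + 2*j + 3 ≠ 0 := by positivity
      push_cast
      rw [show 2 * ((n:ℚ)+1) - 2*j - 1 = 2*(n:ℚ) - 2*j + 1 by ring,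
        show (n:ℚ)+1+2*j+1 = (n:ℚ)+2*j+2 by ring, show (n:ℚ)+1+2*j+2 = (n:ℚ)+2*j+3 by ring]
      generalize hd : 2*(n:ℚ) - 2*j + 1 = d at *
      generalize he : (n:ℚ)+2*j+2 = e at *
      generalize hf : (n:ℚ)+2*j+3 = f at *
      field_simp
      ring
    rw [e1, ih]
    unfold rho
    have h1 := odn' n j
    have h2 := odn n j
    have h3 : (n:ℚ) + 1 ≠ 0 := by positivity
    have h4 : (n:ℚ) + 2*j + 2 ≠ 0 := by positivity
    have h5 : (n:ℚ) + 2*j + 1 ≠ 0 := by positivity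
    have h6 : (n:ℚ) + 2*j + 3 ≠ 0 := by positivity
    push_cast
    rw [show (2 * (n:ℚ) - 2 * ((j:ℚ) + 1) + 1) = 2 * (n:ℚ) - 2*j - 1 by ring,
      show (n:ℚ) + 1 + 2*((j:ℚ) + 1) = n + 2*j + 3 by ring, show (n:ℚ)+1+2*j = n + 2*j+1 by ring]
    generalize hd : 2*(n:ℚ) - 2*j + 1 = d at *
    generalize he : 2*(n:ℚ) - 2*j - 1 = e at *
    generalize hf : (n:ℚ) + 2*j + 1 = f at *
    generalize hg : (n:ℚ) + 2*j + 2 = g at *
    generalize hk : (n:ℚ) + 2*j + 3 = k at *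
    field_simp
    ring

lemma wz (n j : ℕ) : G (n+1) j - G n j = F n j - F n (j+1) := by
  have e1 : G (n+1) j = 2*((n:ℚ)+1)*(2*n+1)*(2*n+2*j+1)/(((n:ℚ)+2*j+1)*((n:ℚ)+2*j+2)) * h n j := by
    unfold G
    have h1 := odn' n j
    have h3 : (n:ℚ) + 1 ≠ 0 := by positivity
    have h5 : (n:ℚ) + 2*j + 1 ≠ 0 := by positivity
    have h6 : (n:ℚ) + 2*j + 2 ≠ 0 := by positivity
    have k := kappa n j
    have : 4 * ((n+1:ℕ):ℚ)^2 * (((n+1:ℕ):ℚ) - 2*j) * h (n+1) j = 4 * ((n:ℚ)+1)^2 * (((n:ℚ) + 1 - 2*j) * h (n+1) j) := by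
      push_cast; ring
    rw [this, k]
    push_cast
    rw [show 2 * ((n:ℚ)+1) - 2*j - 1 = 2*(n:ℚ) - 2*j + 1 by ring, show (n:ℚ)+1+2*j+1 = (n:ℚ)+2*j+2 by ring,
      show (n:ℚ)+1+2*j = n + 2*j+1 by ring]
    generalize hd : 2*(n:ℚ) - 2*j + 1 = d at *
    generalize hf : (n:ℚ) + 2*j + 1 = f at *
    generalize hg : (n:ℚ) + 2*j + 2 = g at *
    field_simp
    ring
  rw [e1]
  unfold F G
  rw [h_succ]
  unfold rho
  have h2 := odn n j
  have h5 : (n:ℚ) + 2*j + 1 ≠ 0 := by positivity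
  have h6 : (n:ℚ) + 2*j + 2 ≠ 0 := by positivity
  push_cast
  generalize he : 2*(n:ℚ) - 2*j - 1 = e at *
  generalize hf : (n:ℚ) + 2*j + 1 = f at *
  generalize hg : (n:ℚ) + 2*j + 2 = g at *
  field_simp
  subst he hf hg
  ring

lemma h_zero {n j : ℕ} (hj : n < 2*j) : h n j = 0 := by
  unfold h
  have : ∏ i ∈ range j, rho n i = 0 := by
    apply Finset.prod_eq_zero (i := n/2) (by rw [mem_range]; omega)
    unfold rho
    have : ((n:ℚ) - 2*((n/2:ℕ):ℚ)) * ((n:ℚ) - 2*((n/2:ℕ):ℚ) - 1) = 0 := by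
      rcases Nat.even_or_odd' n with ⟨m, hm | hm⟩
      · have : n/2 = m := by omega
        rw [this, hm]; push_cast; ring
      · have : n/2 = m := by omega
        rw [this, hm]; push_cast; ring
    rw [this]; simp
  rw [this, mul_zero]

lemma sum_G (J N : ℕ) (hN : N ≤ 2*J) :
    ∑ n ∈ range N, (3*(n:ℚ)+1) * tb n = ∑ j ∈ range J, G N j := by
  induction N with
  | zero => simp [G]
  | succ N ih =>
    rw [sum_range_succ, ih (by omega)]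
    have : ∑ j ∈ range J, G (N+1) j = ∑ j ∈ range J, G N j + ∑ j ∈ range J, (F N j - F N (j+1)) := by
      rw [← sum_add_distrib]
      apply sum_congr rfl
      intro j _
      rw [← wz]; ring
    rw [this, sum_range_sub']
    unfold F
    rw [h_zero (show N < 2*J by omega)]
    unfold h
    simp

noncomputable def w (N : ℚ) (r : ℕ) : ℚ :=
  ∏ i ∈ range r, ((2*(i:ℚ)+N)*(2*i+1-2*N)*(2*i-2*N)/((2*i+2-3*N)*(2*i+1)*(2*i+2)))

lemma G_step (n j : ℕ) : G n (j+1) * ((2*(n:ℚ) - 2*j - 3) * ((n:ℚ)+2*j+2) * ((n:ℚ)+2*j+3)) =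
    -((2*(n:ℚ)+2*j+1) * ((n:ℚ) - 2*j - 2) * ((n:ℚ) - 2*j - 1)) * G n j := by
  unfold G
  rw [h_succ]
  unfold rho
  have h2 := odn n j
  have h3 := odn n (j+1)
  have h5 : (n:ℚ) + 2*j + 1 ≠ 0 := by positivity
  have h6 : (n:ℚ) + 2*j + 2 ≠ 0 := by positivity
  have h7 : (n:ℚ) + 2*j + 3 ≠ 0 := by positivity
  have h8 : 2*(n:ℚ) - 2*j - 3 ≠ 0 := by
    push_cast at h3; intro h; apply h3; linarith
  push_cast
  rw [show 2*(n:ℚ) - 2*((j:ℚ)+1) - 1 = 2*(n:ℚ) - 2*j - 3 by ring, show (n:ℚ) + 2*((j:ℚ)+1) + 1 = n+2*j+3 by ring]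
  generalize he : 2*(n:ℚ) - 2*j - 1 = e at *
  generalize hf : 2*(n:ℚ) - 2*j - 3 = f at *
  generalize hf : (n:ℚ) + 2*j + 1 = f at *
  generalize hg : (n:ℚ) + 2*j + 2 = g at *
  generalize hk : (n:ℚ) + 2*j + 3 = k at *
  field_simp
  ring

lemma thr_ne (R r : ℕ) : 2*(r:ℚ)+2-3*((2*R+1:ℕ):ℚ) ≠ 0 := by
  intro h
  have : 2*(r:ℤ)+2-3*((2*R+1:ℕ):ℤ) = 0 := by exact_mod_cast h
  omega

lemma G_rev (R r : ℕ) (hr : r ≤ R) : G (2*R+1) (R - r) = G (2*R+1) R * w ((2*R+1:ℕ):ℚ) r := by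
  induction r with
  | zero => simp [w]
  | succ r ih =>
    have ih' := ih (by omega)
    obtain ⟨j, hj⟩ : ∃ j, R = j + r + 1 := ⟨R - r - 1, by omega⟩
    have e1 : R - r = j + 1 := by omega
    have e2 : R - (r+1) = j := by omega
    rw [e1] at ih'
    rw [e2]
    have s := G_step (2*R+1) j
    have hw : w ((2*R+1:ℕ):ℚ) (r+1) = w ((2*R+1:ℕ):ℚ) r *
        ((2*(r:ℚ)+((2*R+1:ℕ):ℚ))*(2*r+1-2*((2*R+1:ℕ):ℚ))*(2*r-2*((2*R+1:ℕ):ℚ))/
          ((2*r+2-3*((2*R+1:ℕ):ℚ))*(2*r+1)*(2*r+2))) := by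
      unfold w; rw [prod_range_succ]
    rw [hw]
    rw [← mul_assoc, ← ih']
    have h1 : (2*(r:ℚ)+1) ≠ 0 := by positivity
    have h2 : (2*(r:ℚ)+2) ≠ 0 := by positivity
    have h3 := thr_ne R r
    rw [mul_div_assoc', eq_div_iff (mul_ne_zero (mul_ne_zero h3 h1) h2)]
    have hR : (R:ℚ) = j + r + 1 := by rw [hj]; push_cast; ring
    push_cast at s ⊢
    rw [hR] at s ⊢
    linear_combination -s

lemma S_eq (R : ℕ) : ∑ n ∈ range (2*R+1), (3*(n:ℚ)+1) * tb n =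
    G (2*R+1) R * ∑ r ∈ range (R+1), w ((2*R+1:ℕ):ℚ) r := by
  rw [sum_G (R+1) (2*R+1) (by omega), ← sum_range_reflect, mul_sum]
  apply sum_congr rfl
  intro r hr
  rw [mem_range] at hr
  rw [← G_rev R r (by omega)]
  congr 1

lemma q3 (R : ℕ) : ∏ i ∈ range R, ((((2*R+1:ℕ):ℚ) + 2*i + 1) * (((2*R+1:ℕ):ℚ) + 2*i + 2)) =
    ((4*R+1).factorial:ℚ) / ((2*R+1).factorial:ℚ) := by
  have key : ∀ n m : ℕ, (n.factorial:ℚ) * ∏ i ∈ range m, (((n:ℚ) + 2*i + 1) * ((n:ℚ) + 2*i + 2)) = ((n+2*m).factorial:ℚ) := by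
    intro n m
    induction m with
    | zero => simp
    | succ m ih =>
      rw [prod_range_succ, ← mul_assoc, ih, show n + 2*(m+1) = n+2*m+1+1 by ring, Nat.factorial_succ (n+2*m+1),
        Nat.factorial_succ (n+2*m)]
      push_cast; ring
  have h := key (2*R+1) R
  rw [show 2*R+1+2*R = 4*R+1 by ring] at h
  have h1 : ((2*R+1).factorial:ℚ) ≠ 0 := by exact_mod_cast (2*R+1).factorial_ne_zero
  rw [eq_div_iff h1, ← h]; ring

lemma q4 (R : ℕ) : ∏ i ∈ range R, (2*((2*R+1:ℕ):ℚ) + 2*i + 1) = od (3*R+1) / od (2*R+1) := by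
  have := od_shift (2*R+1) R
  rw [show 2*R+1+R = 3*R+1 by ring] at this
  rw [← this]
  apply prod_congr rfl
  intro i _; push_cast; ring

/-- the leading factor -/
lemma closed (R : ℕ) : G (2*R+1) R = ((2*R+1:ℕ):ℚ) *
    ∏ k ∈ range R, ((2*(k:ℚ)+2+((2*R+1:ℕ):ℚ)) * (2*(k:ℚ)+2-3*((2*R+1:ℕ):ℚ)) * (2*(k:ℚ)+2-((2*R+1:ℕ):ℚ))^2 /
      ((2*(k:ℚ)+2)^2 * (2*(k:ℚ)+2-2*((2*R+1:ℕ):ℚ))^2)) := by
  have hrho : ∏ i ∈ range R, rho (2*R+1) i = (-1)^R * (od (3*R+1) / od (2*R+1)) * ((2*R+1).factorial:ℚ) /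
      ((od (2*R+1) / od (R+1)) * (((4*R+1).factorial:ℚ) / ((2*R+1).factorial:ℚ))) := by
    rw [← q3, ← p1, ← p2, ← q4]
    have h3 : (-1:ℚ)^R = ∏ i ∈ range R, (-1:ℚ) := by simp
    rw [h3, ← prod_mul_distrib, ← prod_mul_distrib, ← prod_mul_distrib, ← prod_div_distrib]
    apply prod_congr rfl
    intro i _
    unfold rho
    ring
  have hG : G (2*R+1) R = 2 * h (2*R+1) R := by
    unfold G
    have e1 : 2*((2*R+1:ℕ):ℚ) - 2*(R:ℚ) - 1 = ((2*R+1:ℕ):ℚ) := by push_cast; ring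
    have e2 : ((2*R+1:ℕ):ℚ) + 2*(R:ℚ) + 1 = 2*((2*R+1:ℕ):ℚ) := by push_cast; ring
    have e3 : ((2*R+1:ℕ):ℚ) - 2*(R:ℚ) = 1 := by push_cast; ring
    rw [e1, e2, e3]
    have h0 : ((2*R+1:ℕ):ℚ) ≠ 0 := by positivity
    field_simp
    ring
  have htb : tb (2*R+1) = (od (2*R+1) / (2^(2*R+1) * ((2*R+1).factorial:ℚ)))^3 * 4^(2*R+1) := by
    unfold tb
    congr 2
    rw [prod_div_distrib]
    congr 1
    have h2 : (2:ℚ)^(2*R+1) = ∏ i ∈ range (2*R+1), (2:ℚ) := by simp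
    have h3 := fact_shift 0 (2*R+1)
    simp only [Nat.factorial_zero, Nat.cast_one, one_mul, Nat.cast_zero, zero_add] at h3
    rw [h2, ← h3, ← prod_mul_distrib]
    apply prod_congr rfl
    intro i _; ring
  have r1 : ∏ k ∈ range R, (2*(k:ℚ)+2+((2*R+1:ℕ):ℚ)) = od (2*R+1) / od (R+1) := by
    have := od_shift (R+1) R
    rw [show R+1+R = 2*R+1 by ring] at this
    rw [← this]
    apply prod_congr rfl
    intro i _; push_cast; ring
  have r2 : ∏ k ∈ range R, (2*(k:ℚ)+2-((2*R+1:ℕ):ℚ)) = (-1)^R * od R := by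
    rw [refl_prod R _ (fun k => (-1) * (2*(k:ℚ)+1))]
    · rw [prod_mul_distrib]; simp [od]
    · intro i k hik
      subst hik
      push_cast; ring
  have r3 : ∏ k ∈ range R, (2*(k:ℚ)+2-3*((2*R+1:ℕ):ℚ)) = (-1)^R * (od (3*R+1) / od (2*R+1)) := by
    rw [refl_prod R _ (fun k => (-1) * (2*((2*R+1:ℕ):ℚ) + 2*(k:ℚ)+1))]
    · rw [prod_mul_distrib, q4]; simp
    · intro i k hik
      subst hik
      push_cast; ring
  have r4 : ∏ k ∈ range R, (2*(k:ℚ)+2) = 2^R * R.factorial := by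
    have h2 : (2:ℚ)^R = ∏ i ∈ range R, (2:ℚ) := by simp
    have h3 := fact_shift 0 R
    simp only [Nat.factorial_zero, Nat.cast_one, one_mul, Nat.cast_zero, zero_add] at h3
    rw [h2, ← h3, ← prod_mul_distrib]
    apply prod_congr rfl
    intro i _; ring
  have r5 : ∏ k ∈ range R, (2*(k:ℚ)+2-2*((2*R+1:ℕ):ℚ)) = (-2)^R * (((2*R).factorial:ℚ) / (R.factorial:ℚ)) := by
    rw [refl_prod R _ (fun k => (-2) * ((R:ℚ) + k + 1))]
    · rw [prod_mul_distrib]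
      have h3 := fact_shift R R
      have h1 : (R.factorial:ℚ) ≠ 0 := by exact_mod_cast R.factorial_ne_zero
      rw [show R + R = 2*R by ring] at h3
      rw [← h3]
      simp
      field_simp
    · intro i k hik
      subst hik
      push_cast; ring
  rw [hG]
  unfold h
  rw [hrho, htb, prod_div_distrib, prod_mul_distrib, prod_mul_distrib, prod_mul_distrib, prod_pow, prod_pow,
    prod_pow, r1, r2, r3, r4, r5]
  have f1 : ((4*R+1).factorial : ℚ) = 2^(2*R) * (2*R).factorial * od (2*R+1) := by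
    rw [show 4*R+1 = 2*(2*R)+1 by ring]; exact od_fact' (2*R)
  have f2 : ((2*R+1).factorial : ℚ) = (2*(R:ℚ)+1) * (2*R).factorial := by
    rw [Nat.factorial_succ]; push_cast; ring
  rw [f1, f2, od_succ R]
  have g1 : ((2*R).factorial:ℚ) ≠ 0 := by exact_mod_cast (2*R).factorial_ne_zero
  have g2 : (R.factorial:ℚ) ≠ 0 := by exact_mod_cast R.factorial_ne_zero
  have g3 := od_ne R
  have g4 := od_ne (2*R+1)
  have g5 := od_ne (3*R+1)
  have g6 : (2:ℚ)^R ≠ 0 := by positivity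
  have g7 : (2*(R:ℚ)+1) ≠ 0 := by positivity
  have q1 : (2:ℚ)^(2*R+1) = 2 * (2^R)^2 := by rw [pow_succ, pow_mul, ← pow_mul, mul_comm 2 R, pow_mul]; ring
  have q2 : (2:ℚ)^(2*R) = (2^R)^2 := by rw [mul_comm 2 R, pow_mul]
  have q3 : (4:ℚ)^(2*R+1) = 4 * (2^R)^4 := by
    rw [show (4:ℚ) = 2^2 by norm_num, ← pow_mul, show 2*(2*R+1) = R*4+2 by ring, pow_add, pow_mul]; ring
  have q4 : (-2:ℚ)^R = (-1)^R * 2^R := by rw [← mul_pow]; norm_num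
  have q5 : ((-1:ℚ)^R)^2 = 1 := by rw [← pow_mul, mul_comm, pow_mul]; norm_num
  rw [q1, q2, q3, q4]
  push_cast
  generalize (2:ℚ)^R = x at *
  generalize od R = y at *
  generalize od (2*R+1) = z at *
  generalize od (3*R+1) = u at *
  generalize ((2*R).factorial:ℚ) = v at *
  generalize (R.factorial:ℚ) = s at *
  have hm : ((-1:ℚ)^R) ≠ 0 := by
    intro h0; rw [h0] at q5; norm_num at q5
  generalize (-1:ℚ)^R = m at *
  field_simp
  norm_num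

end Pool.Agent.K7.H59.SC
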