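import Pool.Agent.Helper857.W8
import Pool.Agent.K7.H59.SC.A1
import Pool.Agent.K7.H59.SC.B1

/-!
# The `p`-adic evaluation of the two sums
-/

set_option autoImplicit false

namespace Pool.Agent.K7.H59.SC

open Finset Pool.Agent.Helper857.Pad
open Pool.Agent.Helper857.W (yy yy_I ev_I g SS HH XX YY KK MM LL SS_eq sum_shift od refl_prod)

variable {p : ℕ} [hp : Fact p.Prime]

/-- `N / (2(k+1))` -/
noncomputable def ga (N : ℚ) (k : ℕ) : ℚ := N/(2*((k:ℚ)+1))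

/-- products of units close to one -/
lemma prod_two (f x : ℕ → ℚ) (R : ℕ) (hf : ∀ i < R, I p 2 (f i - 1 - x i)) (hx : ∀ i < R, I p 1 (x i)) :
    I p 2 (∏ i ∈ range R, f i - 1 - ∑ i ∈ range R, x i) := by
  induction R with
  | zero => simpa using I.zero 2
  | succ R ih =>
    have ih' := ih (fun i hi => hf i (by omega)) (fun i hi => hx i (by omega))
    have hs : I p 1 (∑ i ∈ range R, x i) := I.sum _ _ (fun i hi => hx i (by rw [mem_range] at hi; omega))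
    have h1 := hf R (by omega)
    have h2 := hx R (by omega)
    rw [prod_range_succ, sum_range_succ]
    have e : (∏ i ∈ range R, f i) * f R - 1 - (∑ i ∈ range R, x i + x R) =
      (∏ i ∈ range R, f i - 1 - ∑ i ∈ range R, x i) * f R +
      (1 + ∑ i ∈ range R, x i) * (f R - 1 - x R) + (∑ i ∈ range R, x i) * x R := by ring
    rw [e]
    have hfm : f R ∈ Zp p := by
      have : f R = (f R - 1 - x R) + (1 + x R) := by ring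
      rw [this]
      exact (Zp p).add_mem h1.mem ((Zp p).add_mem (Zp p).one_mem h2.mem)
    have hsm : 1 + ∑ i ∈ range R, x i ∈ Zp p := (Zp p).add_mem (Zp p).one_mem hs.mem
    have h3 := hs.mul h2
    exact ((ih'.mul_mem hfm).add (I.mem_mul hsm h1)).add h3

lemma m_nat (n : ℕ) : ((n:ℕ):ℚ) ∈ Zp p := nat_mem n

/-- inverse of `1 - c x` for an integer `c` -/
lemma inv_lin {x : ℚ} (hx : I p 1 x) (c : ℤ) : (1 - c*x) ≠ 0 ∧ (1 - c*x)⁻¹ ∈ Zp p ∧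
    I p 2 ((1 - c*x)⁻¹ - 1 - c*x) := by
  have hc : I p 1 ((c:ℚ)*x) := I.mem_mul (int_mem c) hx
  obtain ⟨n0, m0, i0⟩ := unit (p := p) (x := 1 - c*x) (by
    have : 1 - c*x - 1 = -(c*x) := by ring
    rw [this]; exact hc.neg)
  refine ⟨n0, m0, ?_⟩
  have hinv : (1-c*x)*(1-c*x)⁻¹ = 1 := mul_inv_cancel₀ n0
  have : (1 - c*x)⁻¹ - 1 - c*x = (c*x)*(c*x)*(1-c*x)⁻¹ := by
    linear_combination (1+c*x) * hinv
  rw [this]
  exact (hc.mul hc).mul_mem m0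

section exact

variable (R : ℕ)

lemma ga_ne (k : ℕ) : 1 - 3 * ga ((2*R+1:ℕ):ℚ) k ≠ 0 := by
  have h1 := thr_ne R k
  have h2 : (2*((k:ℚ)+1)) ≠ 0 := by positivity
  unfold ga
  intro h
  apply h1
  field_simp at h
  linarith

/-- the terms of the transformed second sum -/
lemma w_succ (r : ℕ) : w ((2*R+1:ℕ):ℚ) (r+1) = -2 * (ga ((2*R+1:ℕ):ℚ) r)^2 * (1 - 3 * ga ((2*R+1:ℕ):ℚ) r)⁻¹ *
    (∏ i ∈ range r, ((1 + ga ((2*R+1:ℕ):ℚ) i) * (1 - 2 * ga ((2*R+1:ℕ):ℚ) i) * (1 - 3 * ga ((2*R+1:ℕ):ℚ) i)⁻¹)) *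
    ∏ i ∈ range (r+1), (1 - 2 * yy ((2*R+1:ℕ):ℚ) i) := by
  induction r with
  | zero =>
    have h1 := thr_ne R 0
    have h2 := ga_ne R 0
    unfold w yy ga at *
    generalize ((2*R+1:ℕ):ℚ) = N at *
    simp only [zero_add, prod_range_one, prod_range_zero, Nat.cast_zero, mul_zero, mul_one] at *
    have h3 : (2 - 3*N) ≠ 0 := by intro h; apply h1; linarith
    have h4 : (1 - 3*(N/2))⁻¹ = 2/(2-3*N) := by
      rw [inv_eq_iff_eq_inv, inv_div]; ring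
    rw [h4]
    field_simp
    ring
  | succ r ih =>
    have e1 : w ((2*R+1:ℕ):ℚ) (r+1+1) = w ((2*R+1:ℕ):ℚ) (r+1) *
      ((2*((r+1:ℕ):ℚ)+((2*R+1:ℕ):ℚ))*(2*((r+1:ℕ):ℚ)+1-2*((2*R+1:ℕ):ℚ))*(2*((r+1:ℕ):ℚ)-2*((2*R+1:ℕ):ℚ))/
          ((2*((r+1:ℕ):ℚ)+2-3*((2*R+1:ℕ):ℚ))*(2*((r+1:ℕ):ℚ)+1)*(2*((r+1:ℕ):ℚ)+2))) := by
      unfold w; rw [prod_range_succ]
    rw [e1, ih, prod_range_succ (fun i : ℕ => 1 - 2 * yy ((2*R+1:ℕ):ℚ) i) (r+1),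
      prod_range_succ (fun i : ℕ => (1 + ga ((2*R+1:ℕ):ℚ) i) * (1 - 2 * ga ((2*R+1:ℕ):ℚ) i) *
        (1 - 3 * ga ((2*R+1:ℕ):ℚ) i)⁻¹) r]
    have h1 := thr_ne R r
    have h1' := thr_ne R (r+1)
    have g1 := ga_ne R r
    have g2 := ga_ne R (r+1)
    generalize (∏ i ∈ range r, ((1 + ga ((2*R+1:ℕ):ℚ) i) * (1 - 2 * ga ((2*R+1:ℕ):ℚ) i) * (1 - 3 * ga ((2*R+1:ℕ):ℚ) i)⁻¹)) = P
    generalize (∏ i ∈ range (r+1), (1 - 2 * yy ((2*R+1:ℕ):ℚ) i)) = Q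
    unfold yy ga at *
    generalize ((2*R+1:ℕ):ℚ) = N at *
    push_cast at *
    have h2 : (r:ℚ)+1 ≠ 0 := by positivity
    have h3 : (r:ℚ)+1+1 ≠ 0 := by positivity
    have h4 : 2*((r:ℚ)+1)+1 ≠ 0 := by positivity
    have i1 : (1 - 3*(N/(2*((r:ℚ)+1))))⁻¹ = (2*((r:ℚ)+1))/(2*(r:ℚ)+2-3*N) := by
      rw [inv_eq_iff_eq_inv, inv_div]; field_simp
    have i2 : (1 - 3*(N/(2*((r:ℚ)+1+1))))⁻¹ = (2*((r:ℚ)+1+1))/(2*((r:ℚ)+1)+2-3*N) := by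
      rw [inv_eq_iff_eq_inv, inv_div]; field_simp
    rw [i1, i2]
    generalize hA : 2*(r:ℚ)+2-3*N = A at *
    generalize hB : 2*((r:ℚ)+1)+2-3*N = B at *
    field_simp

/-- the leading factor in terms of `ga` -/
lemma lead : G (2*R+1) R = ((2*R+1:ℕ):ℚ) *
    ∏ k ∈ range R, ((1 + ga ((2*R+1:ℕ):ℚ) k) * (1 - 3 * ga ((2*R+1:ℕ):ℚ) k) * (1 - ga ((2*R+1:ℕ):ℚ) k)^2 *
      ((1 - 2 * ga ((2*R+1:ℕ):ℚ) k)⁻¹)^2) := by
  rw [closed]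
  congr 1
  apply prod_congr rfl
  intro k hk
  rw [mem_range] at hk
  have h1 : 2*(k:ℚ)+2-2*((2*R+1:ℕ):ℚ) ≠ 0 := by
    have : ((2*R+1:ℕ):ℚ) = 2*(R:ℚ)+1 := by push_cast; ring
    rw [this]
    have h : (k:ℚ) + 1 ≤ R := by exact_mod_cast hk
    intro h0; linarith [(Nat.cast_nonneg R : (0:ℚ) ≤ R)]
  unfold ga
  generalize ((2*R+1:ℕ):ℚ) = N at *
  have h2 : (k:ℚ)+1 ≠ 0 := by positivity
  have i1 : (1 - 2*(N/(2*((k:ℚ)+1))))⁻¹ = (2*(k:ℚ)+2)/(2*(k:ℚ)+2-2*N) := by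
    rw [inv_eq_iff_eq_inv, inv_div]; field_simp
  rw [i1]
  have h3 : 2*(k:ℚ)+2 = 2*((k:ℚ)+1) := by ring
  generalize hA : 2*(k:ℚ)+2-2*N = A at *
  rw [h3]
  field_simp

/-- the second sum divided by `N` -/
noncomputable def TB : ℚ := (∑ n ∈ range (2*R+1), (3*(n:ℚ)+1) * tb n) / ((2*R+1:ℕ):ℚ)

/-- the first sum divided by `N` -/
noncomputable def TA : ℚ := (∑ k ∈ range (R+1), (4*(k:ℚ)+1) * (cc k)^2) / ((2*R+1:ℕ):ℚ)

/-- the common weighted sum -/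
noncomputable def W2 : ℚ := ∑ r ∈ range R, (ga ((2*R+1:ℕ):ℚ) r)^2 * ∑ i ∈ range (r+1), yy ((2*R+1:ℕ):ℚ) i

lemma TB_eq : TB R = (∏ k ∈ range R, ((1 + ga ((2*R+1:ℕ):ℚ) k) * (1 - 3 * ga ((2*R+1:ℕ):ℚ) k) *
    (1 - ga ((2*R+1:ℕ):ℚ) k)^2 * ((1 - 2 * ga ((2*R+1:ℕ):ℚ) k)⁻¹)^2)) *
    (1 + ∑ r ∈ range R, w ((2*R+1:ℕ):ℚ) (r+1)) := by
  unfold TB
  rw [S_eq, lead, sum_range_succ' (fun r => w ((2*R+1:ℕ):ℚ) r)]
  have h0 : ((2*R+1:ℕ):ℚ) ≠ 0 := by positivity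
  have h1 : w ((2*R+1:ℕ):ℚ) 0 = 1 := by simp [w]
  rw [h1]
  field_simp
  ring

lemma sum_ga2 : ∑ k ∈ range R, (ga ((2*R+1:ℕ):ℚ) k)^2 = (1/4) * SS ((2*R+1:ℕ):ℚ) R := by
  unfold ga; exact SS_eq R

lemma sum_ga3 : ∑ k ∈ range R, (ga ((2*R+1:ℕ):ℚ) k)^3 = (1/8) * HH ((2*R+1:ℕ):ℚ) R := by
  unfold HH ga
  rw [sum_shift, mul_sum]
  apply sum_congr rfl
  intro r hr
  unfold g
  push_cast
  field_simp
  norm_num

lemma sum_gag : ∑ r ∈ range R, (ga ((2*R+1:ℕ):ℚ) r)^2 * ∑ i ∈ range r, ga ((2*R+1:ℕ):ℚ) i =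
    (1/8) * XX ((2*R+1:ℕ):ℚ) R := by
  unfold XX
  rw [sum_comm, sum_shift, mul_sum]
  apply sum_congr rfl
  intro s hs
  rw [mem_range] at hs
  rw [← sum_filter, mul_sum, mul_sum]
  symm
  apply sum_nbij' (fun i => i - 1) (fun i => i + 1)
  · intro m hm; simp only [mem_filter, mem_Icc, mem_range] at hm ⊢; omega
  · intro m hm; simp only [mem_filter, mem_Icc, mem_range] at hm ⊢; omega
  · intro m hm; simp only [mem_filter, mem_Icc] at hm; omega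
  · intro m hm; simp only [mem_range] at hm; omega
  · intro m hm
    simp only [mem_filter, mem_Icc] at hm
    obtain ⟨k, rfl⟩ : ∃ k, m = k + 1 := ⟨m-1, by omega⟩
    rw [show k + 1 - 1 = k by omega]
    unfold g ga
    have h1 : (k:ℚ)+1 ≠ 0 := by positivity
    have h2 : (s:ℚ)+1 ≠ 0 := by positivity
    push_cast
    field_simp
    norm_num

end exact

end Pool.Agent.K7.H59.SC
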