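import Pool.Agent.K7.H59.SC.C1

/-!
# The second sum modulo `p^4`
-/

set_option autoImplicit false

namespace Pool.Agent.K7.H59.SC

open Finset Pool.Agent.Helper857.Pad
open Pool.Agent.Helper857.W (yy yy_I ev_I g SS HH XX YY KK MM LL SS_eq sum_shift od refl_prod)

variable {p : ℕ} [hp : Fact p.Prime] {a R : ℕ}

lemma ga_I (ha : 1 ≤ a) (hN : 2*R+1 = p^a) {i : ℕ} (hi : i < R) : I p 1 (ga ((2*R+1:ℕ):ℚ) i) := by
  unfold ga; exact ev_I (p := p) ha hN hi

lemma mul_two {f g x y : ℚ} (hf : I p 2 (f - 1 - x)) (hg : I p 2 (g - 1 - y)) (hx : I p 1 x) (hy : I p 1 y) :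
    I p 2 (f * g - 1 - (x + y)) := by
  have e : f * g - 1 - (x + y) = (f - 1 - x) * g + (1 + x) * (g - 1 - y) + x * y := by ring
  rw [e]
  have hgm : g ∈ Zp p := by
    have : g = (g - 1 - y) + (1 + y) := by ring
    rw [this]
    exact (Zp p).add_mem hg.mem ((Zp p).add_mem (Zp p).one_mem hy.mem)
  exact ((hf.mul_mem hgm).add (I.mem_mul ((Zp p).add_mem (Zp p).one_mem hx.mem) hg)).add (hx.mul hy)

lemma zf {x : ℚ} (hx : I p 1 x) :
    I p 4 (1 - (1 + x) * (1 - 3 * x) * (1 - x)^2 * ((1 - 2 * x)⁻¹)^2 - (2 * x^2 + 4 * x^3)) := by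
  obtain ⟨n0, m0, -⟩ := inv_lin hx 2
  push_cast at n0 m0
  have hinv : (1-2*x)*(1-2*x)⁻¹ = 1 := mul_inv_cancel₀ n0
  have e : 1 - (1 + x) * (1 - 3 * x) * (1 - x)^2 * ((1 - 2 * x)⁻¹)^2 - (2 * x^2 + 4 * x^3) =
      x^4 * ((11 - 16 * x) * ((1 - 2*x)⁻¹)^2) := by
    linear_combination (-(1 - 2*x^2 - 4*x^3) * ((1-2*x)*(1-2*x)⁻¹+1)) * hinv
  rw [e]
  have h4 : I p 4 (x^4) := by simpa using hx.pow 4
  refine h4.mul_mem ((Zp p).mul_mem ((Zp p).sub_mem (by exact_mod_cast nat_mem 11) ?_) ((Zp p).pow_mem m0 2))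
  exact (I.mem_mul (by exact_mod_cast nat_mem 16) hx).mem

lemma TB_main (ha : 1 ≤ a) (hN : 2*R+1 = p^a) :
    I p 4 (TB R - (1 - SS ((2*R+1:ℕ):ℚ) R - (5/4) * HH ((2*R+1:ℕ):ℚ) R - (1/2) * XX ((2*R+1:ℕ):ℚ) R + 4 * W2 R)) := by
  have hga : ∀ i < R, I p 1 (ga ((2*R+1:ℕ):ℚ) i) := fun i hi => ga_I ha hN hi
  have hyy : ∀ i < R, I p 1 (yy ((2*R+1:ℕ):ℚ) i) := fun i hi => yy_I ha hN hi
  have s2 := sum_ga2 R
  have s3 := sum_ga3 R
  have sg := sum_gag R
  rw [TB_eq]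
  set N : ℚ := ((2*R+1:ℕ):ℚ) with hNd
  set C := ∏ k ∈ range R, ((1 + ga N k) * (1 - 3 * ga N k) * (1 - ga N k)^2 * ((1 - 2 * ga N k)⁻¹)^2) with hC
  set W := ∑ r ∈ range R, w N (r+1) with hW
  have two : ((2:ℕ):ℚ) ∈ Zp p := nat_mem 2
  have m2 : (2:ℚ) ∈ Zp p := by exact_mod_cast nat_mem 2
  have m3 : (3:ℚ) ∈ Zp p := by exact_mod_cast nat_mem 3
  have m4 : (4:ℚ) ∈ Zp p := by exact_mod_cast nat_mem 4
  -- the leading factor
  set c := ∑ k ∈ range R, (2 * (ga N k)^2 + 4 * (ga N k)^3) with hc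
  have hc2 : I p 2 c := by
    apply I.sum
    intro i hi
    rw [mem_range] at hi
    have h1 := hga i hi
    exact (I.mem_mul m2 (by simpa using h1.pow 2)).add (I.mem_mul m4 ((by simpa using h1.pow 3 : I p 3 (ga N i ^ 3)).mono (by norm_num)))
  have hC4 : I p 4 (C - (1 - c)) := by
    have hz : ∀ i < R, I p 2 (1 - (1 + ga N i) * (1 - 3 * ga N i) * (1 - ga N i)^2 * ((1 - 2 * ga N i)⁻¹)^2) := by
      intro i hi
      have h1 := hga i hi
      have h2 := zf h1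
      have e : 1 - (1 + ga N i) * (1 - 3 * ga N i) * (1 - ga N i)^2 * ((1 - 2 * ga N i)⁻¹)^2 =
        (1 - (1 + ga N i) * (1 - 3 * ga N i) * (1 - ga N i)^2 * ((1 - 2 * ga N i)⁻¹)^2 - (2 * (ga N i)^2 + 4 * (ga N i)^3)) +
        (2 * (ga N i)^2 + 4 * (ga N i)^3) := by ring
      rw [e]
      exact (h2.mono (by norm_num)).add ((I.mem_mul m2 (by simpa using h1.pow 2)).add
        (I.mem_mul m4 ((by simpa using h1.pow 3 : I p 3 (ga N i ^ 3)).mono (by norm_num))))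
    have h3 := prod_one_sub (p := p) (m := 2) _ R hz
    have e1 : ∏ i ∈ range R, (1 - (1 - (1 + ga N i) * (1 - 3 * ga N i) * (1 - ga N i)^2 * ((1 - 2 * ga N i)⁻¹)^2)) = C := by
      rw [hC]
      apply prod_congr rfl
      intro i _; ring
    rw [e1] at h3
    have e2 : C - (1 - c) = (C - (1 - ∑ i ∈ range R, (1 - (1 + ga N i) * (1 - 3 * ga N i) * (1 - ga N i)^2 * ((1 - 2 * ga N i)⁻¹)^2)))
        - ∑ i ∈ range R, ((1 - (1 + ga N i) * (1 - 3 * ga N i) * (1 - ga N i)^2 * ((1 - 2 * ga N i)⁻¹)^2) - (2 * (ga N i)^2 + 4 * (ga N i)^3)) := by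
      have e3 : ∑ i ∈ range R, ((1 - (1 + ga N i) * (1 - 3 * ga N i) * (1 - ga N i)^2 * ((1 - 2 * ga N i)⁻¹)^2) - (2 * (ga N i)^2 + 4 * (ga N i)^3)) =
          ∑ i ∈ range R, (1 - (1 + ga N i) * (1 - 3 * ga N i) * (1 - ga N i)^2 * ((1 - 2 * ga N i)⁻¹)^2) - c := by
        rw [hc, ← sum_sub_distrib]
      rw [e3]; abel
    rw [e2]
    exact (h3.mono (by norm_num)).sub (I.sum _ _ (fun i hi => zf (hga i (by simpa using hi))))
  -- the sum
  have hterm : ∀ r < R, I p 4 (w N (r+1) + 2 * (ga N r)^2 *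
      (1 + 3 * ga N r + 2 * ∑ i ∈ range r, ga N i - 2 * ∑ i ∈ range (r+1), yy N i)) ∧ I p 2 (w N (r+1)) := by
    intro r hr
    have h1 := hga r hr
    obtain ⟨n0, m0, i0⟩ := inv_lin h1 3
    push_cast at n0 m0 i0
    have hU : I p 2 (∏ i ∈ range r, ((1 + ga N i) * (1 - 2 * ga N i) * (1 - 3 * ga N i)⁻¹) - 1 - ∑ i ∈ range r, 2 * ga N i) := by
      apply prod_two
      · intro i hi
        have g1 := hga i (by omega)
        obtain ⟨n1, m1, i1⟩ := inv_lin g1 3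
        push_cast at n1 m1 i1
        have a1 : I p 2 ((1 + ga N i) - 1 - ga N i) := by
          have : (1 + ga N i) - 1 - ga N i = 0 := by ring
          rw [this]; exact I.zero 2
        have a2 : I p 2 ((1 - 2 * ga N i) - 1 - (-2 * ga N i)) := by
          have : (1 - 2 * ga N i) - 1 - (-2 * ga N i) = 0 := by ring
          rw [this]; exact I.zero 2
        have g2 : I p 1 (-2 * ga N i) := I.mem_mul (by exact_mod_cast int_mem (-2)) g1
        have a3 := mul_two (mul_two a1 a2 g1 g2) i1 (g1.add g2) (I.mem_mul m3 g1)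
        have e : (1 + ga N i) * (1 - 2 * ga N i) * (1 - 3 * ga N i)⁻¹ - 1 - 2 * ga N i =
          (1 + ga N i) * (1 - 2 * ga N i) * (1 - 3 * ga N i)⁻¹ - 1 - (ga N i + -2 * ga N i + 3 * ga N i) := by ring
        rw [e]; exact a3
      · intro i hi
        exact I.mem_mul m2 (hga i (by omega))
    have hZ : I p 2 (∏ i ∈ range (r+1), (1 - 2 * yy N i) - 1 - ∑ i ∈ range (r+1), (-2 * yy N i)) := by
      apply prod_two
      · intro i hi
        have : 1 - 2 * yy N i - 1 - -2 * yy N i = 0 := by ring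
        rw [this]; exact I.zero 2
      · intro i hi
        exact I.mem_mul (by exact_mod_cast int_mem (-2)) (hyy i (by omega))
    have sU : I p 1 (∑ i ∈ range r, 2 * ga N i) := I.sum _ _ (fun i hi => I.mem_mul m2 (hga i (by rw [mem_range] at hi; omega)))
    have sZ : I p 1 (∑ i ∈ range (r+1), (-2 * yy N i)) := I.sum _ _ (fun i hi =>
      I.mem_mul (by exact_mod_cast int_mem (-2)) (hyy i (by rw [mem_range] at hi; omega)))
    have t1 := mul_two (mul_two i0 hU (I.mem_mul m3 h1) sU) hZ ((I.mem_mul m3 h1).add sU) sZ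
    rw [hNd, w_succ, ← hNd]
    set U := ∏ i ∈ range r, ((1 + ga N i) * (1 - 2 * ga N i) * (1 - 3 * ga N i)⁻¹)
    set Z := ∏ i ∈ range (r+1), (1 - 2 * yy N i)
    have g2 : I p 2 ((ga N r)^2) := by simpa using h1.pow 2
    constructor
    · have e : -2 * (ga N r)^2 * (1 - 3 * ga N r)⁻¹ * U * Z + 2 * (ga N r)^2 *
        (1 + 3 * ga N r + 2 * ∑ i ∈ range r, ga N i - 2 * ∑ i ∈ range (r+1), yy N i) =
        (ga N r)^2 * ((1 - 3 * ga N r)⁻¹ * U * Z - 1 - (3 * ga N r + ∑ i ∈ range r, 2 * ga N i +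
          ∑ i ∈ range (r+1), (-2 * yy N i))) * (-2) := by
        rw [← mul_sum, ← mul_sum]; ring
      rw [e]
      exact (g2.mul t1).mul_mem (by exact_mod_cast int_mem (-2))
    · have hm : (1 - 3 * ga N r)⁻¹ * U * Z ∈ Zp p := by
        have : (1 - 3 * ga N r)⁻¹ * U * Z = ((1 - 3 * ga N r)⁻¹ * U * Z - 1 - (3 * ga N r + ∑ i ∈ range r, 2 * ga N i +
          ∑ i ∈ range (r+1), (-2 * yy N i))) + (1 + (3 * ga N r + ∑ i ∈ range r, 2 * ga N i +
          ∑ i ∈ range (r+1), (-2 * yy N i))) := by ring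
        rw [this]
        exact (Zp p).add_mem t1.mem ((Zp p).add_mem (Zp p).one_mem
          (((I.mem_mul m3 h1).add sU).add sZ).mem)
      have e : -2 * (ga N r)^2 * (1 - 3 * ga N r)⁻¹ * U * Z = (ga N r)^2 * (((1 - 3 * ga N r)⁻¹ * U * Z) * (-2)) := by ring
      rw [e]
      exact g2.mul_mem ((Zp p).mul_mem hm (by exact_mod_cast int_mem (-2)))
  set om := ∑ r ∈ range R, 2 * (ga N r)^2 *
      (1 + 3 * ga N r + 2 * ∑ i ∈ range r, ga N i - 2 * ∑ i ∈ range (r+1), yy N i) with hom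
  have hW4 : I p 4 (W + om) := by
    rw [hW, hom, ← sum_add_distrib]
    exact I.sum _ _ (fun r hr => (hterm r (by simpa using hr)).1)
  have hW2 : I p 2 W := I.sum _ _ (fun r hr => (hterm r (by simpa using hr)).2)
  have eom : om = (1/2) * SS N R + (3/4) * HH N R + (1/2) * XX N R - 4 * W2 R := by
    have : om = 2 * (∑ k ∈ range R, (ga N k)^2) + 6 * (∑ k ∈ range R, (ga N k)^3) +
        4 * (∑ r ∈ range R, (ga N r)^2 * ∑ i ∈ range r, ga N i) - 4 * W2 R := by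
      unfold W2
      rw [hom, mul_sum, mul_sum, mul_sum, mul_sum, ← sum_add_distrib, ← sum_add_distrib, ← sum_sub_distrib]
      apply sum_congr rfl
      intro r _; ring
    rw [this, s2, s3, sg]; ring
  have ec : c = (1/2) * SS N R + (1/2) * HH N R := by
    have : c = 2 * (∑ k ∈ range R, (ga N k)^2) + 4 * (∑ k ∈ range R, (ga N k)^3) := by
      rw [hc, mul_sum, mul_sum, ← sum_add_distrib]
    rw [this, s2, s3]; ring
  have hfin : C * (1 + W) - (1 - SS N R - (5/4) * HH N R - (1/2) * XX N R + 4 * W2 R) =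
      (C - (1 - c)) * (1 + W) - c * W + (W + om) := by
    have : (1 - SS N R - (5/4) * HH N R - (1/2) * XX N R + 4 * W2 R) = 1 - c - om := by
      rw [ec, eom]; ring
    rw [this]; ring
  rw [hfin]
  refine ((hC4.mul_mem ((Zp p).add_mem (Zp p).one_mem hW2.mem)).sub ?_).add hW4
  exact hc2.mul hW2

end Pool.Agent.K7.H59.SC
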