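import Pool.Agent.K7.H59.SC.C2

/-!
# The first sum modulo `p^4`
-/

set_option autoImplicit false

namespace Pool.Agent.K7.H59.SC

open Finset Pool.Agent.Helper857.Pad
open Pool.Agent.Helper857.W (yy yy_I ev_I g SS HH XX YY KK MM LL SS_eq sum_shift od refl_prod half_mem)

variable {p : ℕ} [hp : Fact p.Prime] {a R : ℕ}

section exact

variable (R : ℕ)

lemma top_odd (k : ℕ) : ((2*R+1:ℕ):ℚ) - 2*k ≠ 0 := by
  have := odd_ne R k
  push_cast; exact this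

/-- the top coefficient -/
lemma cc_R : cc R = ∏ k ∈ range R, (1 - ga ((2*R+1:ℕ):ℚ) k)^2 := by
  have h1 : ∏ i ∈ range R, (2*(i:ℚ)+1) = ∏ k ∈ range R, (-1) * (2*(k:ℚ)+2-((2*R+1:ℕ):ℚ)) := by
    apply refl_prod
    intro i k hik
    subst hik
    push_cast; ring
  unfold cc
  rw [prod_pow, prod_pow, prod_div_distrib, h1, prod_mul_distrib, prod_const, card_range]
  have h2 : ∏ k ∈ range R, (1 - ga ((2*R+1:ℕ):ℚ) k) = (∏ k ∈ range R, (2*(k:ℚ)+2-((2*R+1:ℕ):ℚ))) / ∏ k ∈ range R, (2*(k:ℚ)+2) := by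
    rw [← prod_div_distrib]
    apply prod_congr rfl
    intro k _
    unfold ga
    generalize ((2*R+1:ℕ):ℚ) = N
    have h3 : 2*((k:ℚ)+1) ≠ 0 := by positivity
    rw [show 2*(k:ℚ)+2 = 2*(k+1) by ring]
    field_simp
  rw [h2, div_pow, div_pow, mul_pow]
  have q5 : ((-1:ℚ)^R)^2 = 1 := by rw [← pow_mul, mul_comm, pow_mul]; norm_num
  rw [q5, one_mul]

/-- `ee` against `cc` -/
lemma ee_cc (k : ℕ) : ee R k = cc k * ∏ i ∈ range k, (1 - (yy ((2*R+1:ℕ):ℚ) i)^2) := by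
  unfold ee cc
  rw [← prod_mul_distrib]
  apply prod_congr rfl
  intro i _
  unfold yy
  have h1 : (2*(i:ℚ)+1) ≠ 0 := by positivity
  have h2 : (i:ℚ)+1 ≠ 0 := by positivity
  have h3 : (2*(i:ℚ)+2) = 2*(i+1) := by ring
  rw [h3]
  push_cast
  field_simp
  ring

/-- the parametric sum has a closed form -/
lemma sumP : cc R * ∑ k ∈ range (R+1), ee R k * (((2*R+1:ℕ):ℚ) / (((2*R+1:ℕ):ℚ) - 2*k)) =
    ∏ k ∈ range R, (1 - (ga ((2*R+1:ℕ):ℚ) k)^2) := by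
  have hz : ∀ k : ℕ, (-(((2*R+1:ℕ):ℚ)/2)) + k ≠ 0 := by
    intro k h
    apply top_odd R k
    linarith
  have h := pf R (-(((2*R+1:ℕ):ℚ)/2)) hz
  have e1 : ∑ k ∈ range (R+1), ee R k * (((2*R+1:ℕ):ℚ) / (((2*R+1:ℕ):ℚ) - 2*k)) =
      (-(((2*R+1:ℕ):ℚ)/2)) * ∑ k ∈ range (R+1), ee R k / (-(((2*R+1:ℕ):ℚ)/2) + k) := by
    rw [mul_sum]
    apply sum_congr rfl
    intro k _
    have h1 := hz k
    have h2 := top_odd R k
    generalize ((2*R+1:ℕ):ℚ) = N at *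
    have h3 : -(N/2) + (k:ℚ) = -(1/2) * (N - 2*k) := by ring
    rw [h3]
    generalize N - 2*(k:ℚ) = M at *
    field_simp
  rw [e1, h, cc_R, prod_range_succ' (fun i : ℕ => -(((2*R+1:ℕ):ℚ)/2) + (i:ℚ))]
  have h0 : ((2*R+1:ℕ):ℚ) ≠ 0 := by positivity
  have h4 : ∏ k ∈ range R, (-(((2*R+1:ℕ):ℚ)/2) + ((k+1:ℕ):ℚ)) ≠ 0 := prod_ne_zero_iff.mpr (fun i _ => hz (i+1))
  have e2 : (∏ k ∈ range R, (1 - ga ((2*R+1:ℕ):ℚ) k)^2) *
      ((∏ i ∈ range R, ((i:ℚ)+1 - -(((2*R+1:ℕ):ℚ)/2))) / ∏ k ∈ range R, (-(((2*R+1:ℕ):ℚ)/2) + ((k+1:ℕ):ℚ))) =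
      ∏ k ∈ range R, (1 - (ga ((2*R+1:ℕ):ℚ) k)^2) := by
    rw [← prod_div_distrib, ← prod_mul_distrib]
    apply prod_congr rfl
    intro k _
    have h1 := hz (k+1)
    unfold ga
    generalize ((2*R+1:ℕ):ℚ) = N at *
    push_cast at *
    have h2 : (k:ℚ)+1 ≠ 0 := by positivity
    have h5 : -(N/2) + ((k:ℚ)+1) = (1 - N/(2*((k:ℚ)+1))) * (k+1) := by field_simp; ring
    have h6 : (k:ℚ)+1 - -(N/2) = (1 + N/(2*((k:ℚ)+1))) * (k+1) := by field_simp; ring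
    have h7 : (1 - N/(2*((k:ℚ)+1))) ≠ 0 := by
      intro h0; rw [h0, zero_mul] at h5; exact h1 h5
    rw [h5, h6]
    generalize N/(2*((k:ℚ)+1)) = x at *
    field_simp
    ring
  rw [← e2]
  have h8 : -(((2*R+1:ℕ):ℚ)/2) ≠ 0 := by
    intro h; apply h0; linarith
  have h9 : -(((2*R+1:ℕ):ℚ)/2) + ((0:ℕ):ℚ) = -(((2*R+1:ℕ):ℚ)/2) := by simp
  rw [h9]
  generalize (∏ k ∈ range R, (-(((2*R+1:ℕ):ℚ)/2) + ((k+1:ℕ):ℚ))) = Q at *
  generalize (-(((2*R+1:ℕ):ℚ)/2)) = z at *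
  field_simp

lemma TA_eq : TA R = cc R * ∑ k ∈ range (R+1), cc k * (((2*R+1:ℕ):ℚ) / (((2*R+1:ℕ):ℚ) - 2*k)) := by
  unfold TA
  rw [sumA]
  have h0 : ((2*R+1:ℕ):ℚ) ≠ 0 := by positivity
  have e1 : ∑ k ∈ range (R+1), cc k * (((2*R+1:ℕ):ℚ) / (((2*R+1:ℕ):ℚ) - 2*k)) =
      ((2*R+1:ℕ):ℚ) * ∑ k ∈ range (R+1), cc k / (2*(R:ℚ)+1-2*k) := by
    rw [mul_sum]
    apply sum_congr rfl
    intro k _
    push_cast
    ring
  rw [e1]
  have e2 : 2*(R:ℚ)+1 = ((2*R+1:ℕ):ℚ) := by push_cast; ring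
  rw [e2]
  field_simp

lemma sumE : ∑ k ∈ range R, ee R (k+1) * (ga ((2*R+1:ℕ):ℚ) k * ∑ i ∈ range (k+1), (yy ((2*R+1:ℕ):ℚ) i)^2) =
    -4 * W2 R := by
  have h := dbl R
  have e1 : ∑ k ∈ range R, ee R (k+1) * (ga ((2*R+1:ℕ):ℚ) k * ∑ i ∈ range (k+1), (yy ((2*R+1:ℕ):ℚ) i)^2) =
      (((2*R+1:ℕ):ℚ)^3/2) * ∑ k ∈ range R, ee R (k+1) * O2 (k+1) / ((k:ℚ)+1) := by
    rw [mul_sum]
    apply sum_congr rfl
    intro k _
    have e : ∑ i ∈ range (k+1), (yy ((2*R+1:ℕ):ℚ) i)^2 = ((2*R+1:ℕ):ℚ)^2 * O2 (k+1) := by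
      unfold O2 yy
      rw [mul_sum]
      apply sum_congr rfl
      intro i _
      rw [div_pow]; ring
    rw [e]
    unfold ga
    have h1 : (k:ℚ)+1 ≠ 0 := by positivity
    field_simp
  have e2 : W2 R = (((2*R+1:ℕ):ℚ)^3/4) * ∑ m ∈ range R, O1 (m+1) / ((m:ℚ)+1)^2 := by
    unfold W2
    rw [mul_sum]
    apply sum_congr rfl
    intro k _
    have e : ∑ i ∈ range (k+1), yy ((2*R+1:ℕ):ℚ) i = ((2*R+1:ℕ):ℚ) * O1 (k+1) := by
      unfold O1 yy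
      rw [mul_sum]
      apply sum_congr rfl
      intro i _
      ring
    rw [e]
    unfold ga
    have h1 : (k:ℚ)+1 ≠ 0 := by positivity
    field_simp
    ring
  rw [e1, h, e2]
  ring

end exact

lemma cc_mem (h2 : (2:ℚ)⁻¹ ∈ Zp p) (k : ℕ) : cc k ∈ Zp p := by
  have h1 : ∀ k : ℕ, ((Nat.centralBinom k : ℕ):ℚ) = 4^k * ∏ i ∈ range k, ((2*(i:ℚ)+1)/(2*i+2)) := by
    intro k
    induction k with
    | zero => simp
    | succ k ih =>
      have h3 := Nat.succ_mul_centralBinom_succ k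
      have h4 : ((k:ℚ)+1) * (Nat.centralBinom (k+1) : ℚ) = 2 * (2*k+1) * (Nat.centralBinom k : ℚ) := by
        exact_mod_cast h3
      have h5 : (k:ℚ)+1 ≠ 0 := by positivity
      apply mul_left_cancel₀ h5
      rw [h4, ih, prod_range_succ, pow_succ]
      have h6 : (2*(k:ℚ)+2) = 2*(k+1) := by ring
      rw [h6]
      field_simp
      ring
  have h3 : cc k = (((Nat.centralBinom k : ℕ):ℚ) * ((2:ℚ)⁻¹)^(2*k))^2 := by
    rw [h1]
    unfold cc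
    rw [prod_pow]
    congr 1
    have : (4:ℚ)^k * ((2:ℚ)⁻¹)^(2*k) = 1 := by
      rw [pow_mul, ← mul_pow]; norm_num
    linear_combination (-(∏ i ∈ range k, ((2*(i:ℚ)+1)/(2*i+2)))) * this
  rw [h3]
  exact (Zp p).pow_mem ((Zp p).mul_mem (nat_mem _) ((Zp p).pow_mem h2 _)) 2

lemma TA_main (ha : 1 ≤ a) (hN : 2*R+1 = p^a) :
    I p 4 (TA R - (1 - (1/4) * SS ((2*R+1:ℕ):ℚ) R + 4 * W2 R)) := by
  have hga : ∀ i < R, I p 1 (ga ((2*R+1:ℕ):ℚ) i) := fun i hi => ga_I ha hN hi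
  have hyy : ∀ i < R, I p 1 (yy ((2*R+1:ℕ):ℚ) i) := fun i hi => yy_I ha hN hi
  have s2 := sum_ga2 R
  have hh := half_mem (p := p) ha hN
  have hcc := cc_mem (p := p) hh
  have hsE := sumE R
  have hsP := sumP R
  have hccR := cc_R R
  have hec := ee_cc R
  have hto := top_odd R
  rw [TA_eq]
  unfold W2 at hsE ⊢
  set N : ℚ := ((2*R+1:ℕ):ℚ) with hNd
  set W := ∑ r ∈ range R, (ga N r)^2 * ∑ i ∈ range (r+1), yy N i with hW
  have m1 := (Zp p).one_mem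
  have m4 : (4:ℚ) ∈ Zp p := by exact_mod_cast nat_mem 4
  have hW3 : I p 3 W := by
    apply I.sum
    intro r hr
    rw [mem_range] at hr
    have h1 : I p 2 ((ga N r)^2) := by simpa using (hga r hr).pow 2
    exact h1.mul (I.sum _ _ (fun i hi => hyy i (by rw [mem_range] at hi; omega)))
  -- the product
  set P := ∏ k ∈ range R, (1 - (ga N k)^2) with hP
  have hP4 : I p 4 (P - (1 - (1/4) * SS N R)) := by
    rw [← s2]
    exact prod_one_sub (p := p) (m := 2) (fun k => (ga N k)^2) R (fun i hi => by simpa using (hga i hi).pow 2)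
  have hV1 : I p 1 (cc R - 1) := by
    rw [hccR]
    apply prod_one
    intro i hi
    have h1 := hga i hi
    have e : (1 - ga N i)^2 - 1 = ga N i * (ga N i - 2) := by ring
    rw [e]
    exact h1.mul_mem ((Zp p).sub_mem h1.mem (by exact_mod_cast nat_mem 2))
  -- the difference
  set D := ∑ k ∈ range (R+1), (cc k - ee R k) * (N / (N - 2*k)) with hD
  have hsplit : cc R * ∑ k ∈ range (R+1), cc k * (N / (N - 2*k)) = P + cc R * D := by
    rw [← hsP, hD, ← mul_add, ← sum_add_distrib]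
    congr 1
    apply sum_congr rfl
    intro k _; ring
  have hD4 : I p 4 (D - 4 * W) := by
    have e0 : D = ∑ k ∈ range R, (cc (k+1) - ee R (k+1)) * (N / (N - 2*((k+1:ℕ):ℚ))) := by
      rw [hD, sum_range_succ']
      have : cc 0 - ee R 0 = 0 := by simp [cc, ee]
      rw [this]; simp
    have e1 : D - 4 * W = ∑ k ∈ range R, ((cc (k+1) - ee R (k+1)) * (N / (N - 2*((k+1:ℕ):ℚ))) +
        ee R (k+1) * (ga N k * ∑ i ∈ range (k+1), (yy N i)^2)) := by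
      rw [sum_add_distrib, hsE, e0]; ring
    rw [e1]
    apply I.sum
    intro k hk
    rw [mem_range] at hk
    have g1 := hga k hk
    obtain ⟨n0, m0, i0⟩ := inv_lin g1 1
    push_cast at n0 m0 i0
    rw [one_mul] at n0 m0 i0
    have hq : N / (N - 2*((k+1:ℕ):ℚ)) = - ga N k * (1 - ga N k)⁻¹ := by
      have h1 := hto (k+1)
      have h2 : (k:ℚ)+1 ≠ 0 := by positivity
      unfold ga at n0 ⊢
      push_cast at h1 ⊢
      have h3 : (1 - N/(2*((k:ℚ)+1)))⁻¹ = -(2*((k:ℚ)+1))/(N - 2*((k:ℚ)+1)) := by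
        rw [inv_eq_iff_eq_inv, inv_div]
        field_simp
        ring
      rw [h3]
      field_simp
    rw [hq, hec]
    set Q := ∑ i ∈ range (k+1), (yy N i)^2 with hQ
    set Pi := ∏ i ∈ range (k+1), (1 - (yy N i)^2) with hPi
    have hQ2 : I p 2 Q := I.sum _ _ (fun i hi => by
      rw [mem_range] at hi
      simpa using (hyy i (by omega)).pow 2)
    have hPi4 : I p 4 (Pi - (1 - Q)) :=
      prod_one_sub (p := p) (m := 2) (fun i => (yy N i)^2) (k+1) (fun i hi => by simpa using (hyy i (by omega)).pow 2)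
    have hPi2 : I p 2 (Pi - 1) := by
      have : Pi - 1 = (Pi - (1 - Q)) - Q := by ring
      rw [this]; exact (hPi4.mono (by norm_num)).sub hQ2
    have hi1 : I p 1 ((1 - ga N k)⁻¹ - 1) := by
      have : (1 - ga N k)⁻¹ - 1 = ((1 - ga N k)⁻¹ - 1 - ga N k) + ga N k := by ring
      rw [this]; exact (i0.mono (by norm_num)).add g1
    have e2 : (cc (k+1) - cc (k+1) * Pi) * (-ga N k * (1 - ga N k)⁻¹) + cc (k+1) * Pi * (ga N k * Q) =
        cc (k+1) * (ga N k * ((Pi - (1 - Q)) * (1 - ga N k)⁻¹ - Q * ((1 - ga N k)⁻¹ - 1) + (Pi - 1) * Q)) := by ring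
    rw [e2]
    apply I.mem_mul (hcc (k+1))
    have h3 : I p 3 ((Pi - (1 - Q)) * (1 - ga N k)⁻¹ - Q * ((1 - ga N k)⁻¹ - 1) + (Pi - 1) * Q) :=
      (((hPi4.mono (by norm_num : 3 ≤ 4)).mul_mem m0).sub (hQ2.mul hi1)).add ((hPi2.mul hQ2).mono (by norm_num))
    exact g1.mul h3
  have hD3 : I p 3 D := by
    have : D = (D - 4 * W) + 4 * W := by ring
    rw [this]
    exact (hD4.mono (by norm_num)).add (I.mem_mul m4 hW3)
  have hfin : cc R * ∑ k ∈ range (R+1), cc k * (N / (N - 2*k)) - (1 - (1/4) * SS N R + 4 * W) =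
      (P - (1 - (1/4) * SS N R)) + (cc R - 1) * D + (D - 4 * W) := by
    rw [hsplit]; ring
  rw [hfin]
  have h5 : I p 4 ((cc R - 1) * D) := hV1.mul hD3
  exact (hP4.add h5).add hD4

end Pool.Agent.K7.H59.SC
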