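import Pool.Agent.K7.H59.SC.C3

/-!
# Comparison of the two sums
-/

set_option autoImplicit false

namespace Pool.Agent.K7.H59.SC

open Finset Pool.Agent.Helper857.Pad
open Pool.Agent.Helper857.W (yy yy_I ev_I g g_I SS HH XX YY KK MM LL SS_eq sum_shift od refl_prod half_mem
  SH H3 L1 Kp Kp1 Kp2 KM XYH Kid classred harm3)

variable {p : ℕ} [hp : Fact p.Prime] {a R : ℕ}

lemma XH5 (ha : 1 ≤ a) (hN : 2*R+1 = p^a) (h5 : 5 ≤ p) :
    I p 4 (3 * HH ((2*R+1:ℕ):ℚ) R + 4 * XX ((2*R+1:ℕ):ℚ) R) := by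
  have n3 : ¬ p ∣ 3 := fun h => absurd (Nat.le_of_dvd (by norm_num) h) (by omega)
  have n2 : ¬ p ∣ 2 := fun h => absurd (Nat.le_of_dvd (by norm_num) h) (by omega)
  have n6 : ¬ p ∣ 6 := by
    intro h
    rw [show 6 = 2*3 by norm_num, hp.out.dvd_mul] at h
    exact h.elim n2 n3
  have sh := SH (p := p) ha hN
  have h3 := H3 (p := p) ha hN
  have l1 := L1 (p := p) ha hN
  have k1 := Kp1 (p := p) ha hN
  have k2 := Kp2 (p := p) ha hN
  have km := KM ((2*R+1:ℕ):ℚ) R
  have xyh := XYH ((2*R+1:ℕ):ℚ) R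
  have kid := Kid ((2*R+1:ℕ):ℚ) R
  set N : ℚ := ((2*R+1:ℕ):ℚ) with hNd
  have m (n : ℕ) : ((n:ℕ):ℚ) ∈ Zp p := nat_mem n
  have s3 : I p 3 (SS N R) := by
    apply I.cancel n6
    have e : ((6:ℕ):ℚ) * SS N R = (6 * SS N R + 7 * HH N R) - 7 * HH N R := by push_cast; ring
    rw [e]
    exact (sh.mono (by norm_num)).sub (I.mem_mul (by exact_mod_cast m 7) h3)
  have ls : I p 4 (LL N R * SS N R) := l1.mul s3
  set P := LL N R * SS N R with hP
  set K := KK N R
  set M := MM N R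
  set X := XX N R
  set Y := YY N R
  set H := HH N R
  set S := SS N R
  set K' := Kp N R
  have x3y : I p 4 (X - 3 * Y) := by
    apply I.cancel n3
    have e : ((3:ℕ):ℚ) * (X - 3*Y) = 8 * ((K' - (1/8) * (K + X - Y - M)) - (K' - (P + X - Y))) - 9 * P := by
      push_cast
      linear_combination (-1) * km + (2) * kid
    rw [e]
    exact (I.mem_mul (by exact_mod_cast m 8) (k2.sub k1)).sub (I.mem_mul (by exact_mod_cast m 9) ls)
  have h4y : I p 4 (H + 4 * Y) := by
    have e : H + 4 * Y = P - (X - 3*Y) := by linear_combination xyh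
    rw [e]; exact ls.sub x3y
  have e : 3 * H + 4 * X = 3 * (H + 4 * Y) + 4 * (X - 3 * Y) := by ring
  rw [e]
  exact (I.mem_mul (by exact_mod_cast m 3) h4y).add (I.mem_mul (by exact_mod_cast m 4) x3y)

lemma XX3 (ha : 1 ≤ a) (hN : 2*R+1 = p^a) (h3 : p = 3) : I p 4 (XX ((2*R+1:ℕ):ℚ) R) := by
  obtain ⟨b, rfl⟩ : ∃ b, a = b + 1 := ⟨a-1, by omega⟩
  unfold XX
  apply I.sum
  intro r hr
  apply I.sum
  intro s hs
  rw [mem_Icc] at hr hs
  by_cases hrs : r < s
  · rw [if_pos hrs]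
    have hr1 := g_I (p := p) ha hN (m := r) (by omega) (by omega)
    have hs1 := g_I (p := p) ha hN (m := s) (by omega) (by omega)
    have hq : 0 < p^b := pow_pos hp.out.pos b
    have hN' : 2*R+1 = 3 * p^b := by rw [hN, pow_succ, mul_comm]; rw [h3]
    have key : ∀ m : ℕ, 0 < m → ¬ p^b ∣ m → I p 2 (g ((2*R+1:ℕ):ℚ) m) := by
      intro m hm hd
      have hb : 1 ≤ b := by
        by_contra h
        have : b = 0 := by omega
        apply hd
        rw [this]; simp
      have h2 := quot (p := p) (a := b+1) (s := b-1) (m := m) hm (by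
        rw [show b - 1 + 1 = b by omega]; exact hd) (by omega)
      rw [show b + 1 - (b-1) = 2 by omega] at h2
      unfold g
      rw [hN]
      push_cast
      exact h2
    by_cases hdr : p^b ∣ r
    · have hds : ¬ p^b ∣ s := by
        intro hds
        obtain ⟨k, hk⟩ := hdr
        obtain ⟨l, hl⟩ := hds
        have hk1 : 1 ≤ k := by
          rcases Nat.eq_zero_or_pos k with h | h
          · subst h; rw [mul_zero] at hk; omega
          · exact h
        have hl2 : 2 ≤ l := by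
          by_contra hlt
          have h4 : l ≤ k := by omega
          have h5 : p^b * l ≤ p^b * k := Nat.mul_le_mul_left _ h4
          omega
        have h6 : p^b * 2 ≤ p^b * l := Nat.mul_le_mul_left _ hl2
        omega
      have h7 := key s (by omega) hds
      have h8 : I p 4 (g ((2*R+1:ℕ):ℚ) s ^ 2) := by simpa using h7.pow 2
      exact I.mem_mul hr1.mem h8
    · have h7 := key r (by omega) hdr
      have h8 : I p 2 (g ((2*R+1:ℕ):ℚ) s ^ 2) := by simpa using hs1.pow 2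
      exact h7.mul h8
  · rw [if_neg hrs]; exact I.zero 4

/-- the two sums agree -/
theorem main (ha : 1 ≤ a) (hN : 2*R+1 = p^a) (h2 : p ≠ 2) : I p 4 (TA R - TB R) := by
  have hA := TA_main (p := p) ha hN
  have hB := TB_main (p := p) ha hN
  have sh := SH (p := p) ha hN
  have h3 := H3 (p := p) ha hN
  have m (n : ℕ) : ((n:ℕ):ℚ) ∈ Zp p := nat_mem n
  have n8 : ¬ p ∣ 8 := by
    intro h
    rw [show 8 = 2^3 by norm_num] at h
    exact h2 ((Nat.prime_dvd_prime_iff_eq hp.out Nat.prime_two).mp (hp.out.dvd_of_dvd_pow h))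
  have hx : I p 4 (3 * HH ((2*R+1:ℕ):ℚ) R + 4 * XX ((2*R+1:ℕ):ℚ) R) := by
    by_cases h5 : 5 ≤ p
    · exact XH5 ha hN h5
    · have hp3 : p = 3 := by
        have h2' := hp.out.two_le
        have h4 : p ≠ 4 := by
          intro h; have := hp.out; rw [h] at this; norm_num at this
        omega
      have hX := XX3 (p := p) ha hN hp3
      have h3H : I p 4 (3 * HH ((2*R+1:ℕ):ℚ) R) := by
        have e : 3 * HH ((2*R+1:ℕ):ℚ) R = (p:ℚ)^1 * HH ((2*R+1:ℕ):ℚ) R := by
          rw [hp3]; push_cast; ring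
        rw [e]
        exact (I.p_pow (p := p) 1).mul h3
      exact h3H.add (I.mem_mul (by exact_mod_cast m 4) hX)
  apply I.cancel n8
  have e : ((8:ℕ):ℚ) * (TA R - TB R) =
      8 * ((TA R - (1 - (1/4) * SS ((2*R+1:ℕ):ℚ) R + 4 * W2 R)) -
        (TB R - (1 - SS ((2*R+1:ℕ):ℚ) R - (5/4) * HH ((2*R+1:ℕ):ℚ) R - (1/2) * XX ((2*R+1:ℕ):ℚ) R + 4 * W2 R))) +
      (6 * SS ((2*R+1:ℕ):ℚ) R + 7 * HH ((2*R+1:ℕ):ℚ) R) +
      (3 * HH ((2*R+1:ℕ):ℚ) R + 4 * XX ((2*R+1:ℕ):ℚ) R) := by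
    push_cast; ring
  rw [e]
  exact ((I.mem_mul (by exact_mod_cast m 8) (hA.sub hB)).add sh).add hx

end Pool.Agent.K7.H59.SC
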